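import Pool.Agent.helper62.QU.Spec

/-!
# Row YNG of project QU: Young's inequality
-/

open scoped MatrixGroups ContDiff Topology UpperHalfPlane
open UpperHalfPlane MeasureTheory Filter Set

namespace Pool.Agent.QU

/-- weighted Cauchy-Schwarz inequality. -/
lemma YNG_cs {K f : ℍ → ℝ} (hK : Continuous K) (hKs : HasCompactSupport K) (hK0 : ∀ w, 0 ≤ K w)
    (hf : Continuous f) : (∫ w : ℍ, K w * f w) ^ 2 ≤ (∫ w : ℍ, K w) * ∫ w : ℍ, K w * f w ^ 2 := by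
  have i1 : Integrable K := hK.integrable_of_hasCompactSupport hKs
  have i2 : Integrable fun w => K w * f w :=
    (hK.mul hf).integrable_of_hasCompactSupport hKs.mul_right
  have i3 : Integrable fun w => K w * f w ^ 2 :=
    (hK.mul (hf.pow 2)).integrable_of_hasCompactSupport hKs.mul_right
  have h : ∀ s : ℝ, 0 ≤ (∫ w : ℍ, K w) * (s * s) + (-2 * ∫ w : ℍ, K w * f w) * s +
      ∫ w : ℍ, K w * f w ^ 2 := by
    intro s
    have j1 : Integrable fun w => s * s * K w := i1.const_mul _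
    have j2 : Integrable fun w => 2 * s * (K w * f w) := i2.const_mul _
    have j3 : Integrable fun w => s * s * K w - 2 * s * (K w * f w) := j1.sub j2
    have h1 : (∫ w : ℍ, K w) * (s * s) + (-2 * ∫ w : ℍ, K w * f w) * s + ∫ w : ℍ, K w * f w ^ 2 =
        ∫ w : ℍ, ((s * s * K w - 2 * s * (K w * f w)) + K w * f w ^ 2) := by
      rw [integral_add j3 i3, integral_sub j1 j2, integral_const_mul, integral_const_mul]
      ring
    rw [h1]
    refine integral_nonneg fun w => ?_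
    have h2 : s * s * K w - 2 * s * (K w * f w) + K w * f w ^ 2 = K w * (f w - s) ^ 2 := by ring
    show 0 ≤ s * s * K w - 2 * s * (K w * f w) + K w * f w ^ 2
    rw [h2]
    exact mul_nonneg (hK0 w) (sq_nonneg _)
  have h3 := discrim_le_zero h
  unfold discrim at h3
  nlinarith

section
variable (h1 : TTT_stmt) {κ : ℝ → ℝ} (hκ : RK κ)
include h1 hκ

lemma YNG_supp : ∃ R : ℝ, 0 ≤ R ∧ ∀ z w : ℍ, κ (tt z w) ≠ 0 → dist z w ≤ R := by
  obtain ⟨s, hs⟩ := hκ.supp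
  obtain ⟨R, hR0, hR⟩ := h1.2.2.2.2.2.1 s
  refine ⟨R, hR0, fun z w h => hR z w ?_⟩
  by_contra hc
  push Not at hc
  exact h (hs _ hc.le)

lemma YNG_cont2 : Continuous fun p : ℍ × ℍ => κ (tt p.1 p.2) :=
  hκ.smooth.continuous.comp h1.2.2.2.2.1

lemma YNG_cont1 (z : ℍ) : Continuous fun w : ℍ => κ (tt z w) :=
  (YNG_cont2 h1 hκ).comp (Continuous.prodMk_right z)

lemma YNG_cpt (z : ℍ) : HasCompactSupport fun w : ℍ => κ (tt z w) := by
  obtain ⟨R, _, hR⟩ := YNG_supp h1 hκ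
  refine HasCompactSupport.intro (isCompact_closedBall z R) fun w hw => ?_
  by_contra hc
  refine hw ?_
  rw [Metric.mem_closedBall, dist_comm]
  exact hR z w hc

lemma YNG_cint {g : ℍ → ℝ} (hg : Continuous g) :
    Continuous fun z : ℍ => ∫ w : ℍ, κ (tt z w) * g w := by
  obtain ⟨R, _, hR⟩ := YNG_supp h1 hκ
  rw [continuous_iff_continuousAt]
  intro z₀
  have h2 : Continuous fun z : ℍ => ∫ w in Metric.closedBall z₀ (R + 1), κ (tt z w) * g w := by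
    refine continuous_parametric_integral_of_continuous ?_ (isCompact_closedBall z₀ (R + 1))
    exact (YNG_cont2 h1 hκ).mul (hg.comp continuous_snd)
  refine h2.continuousAt.congr ?_
  filter_upwards [Metric.ball_mem_nhds z₀ one_pos] with z hz
  refine setIntegral_eq_integral_of_forall_compl_eq_zero fun w hw => ?_
  by_contra hc
  refine hw ?_
  have h3 : κ (tt z w) ≠ 0 := fun h0 => hc (by rw [h0, zero_mul])
  have h4 := hR z w h3
  rw [Metric.mem_ball] at hz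
  rw [Metric.mem_closedBall]
  calc dist w z₀ ≤ dist w z + dist z z₀ := dist_triangle _ _ _
    _ ≤ R + 1 := by
      rw [dist_comm w z]
      linarith

end

theorem YNG (h1 : TTT_stmt) (h2 : INV_stmt) (h3 : LAK_stmt) (h4 : DOB_stmt) (h5 : SYM_stmt) :
    YNG_stmt := by
  intro Γ F E _ _ _ κ φ m hΓ hF hκ hκ0 hm hφ hinv
  obtain ⟨K, hK, hFK⟩ := hF.rel
  have htt0 : ∀ z w, 0 ≤ tt z w := h1.2.1
  have hm0 : 0 ≤ m := le_trans (integral_nonneg fun w => hκ0 _ (htt0 _ _)) (hm UpperHalfPlane.I)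
  have hnφ : Continuous fun w => ‖φ w‖ := hφ.norm
  -- pointwise
  have hpt : ∀ z, ‖conv κ φ z‖ ^ 2 ≤ m * ∫ w : ℍ, κ (tt z w) * ‖φ w‖ ^ 2 := by
    intro z
    have a1 : ‖conv κ φ z‖ ≤ ∫ w : ℍ, κ (tt z w) * ‖φ w‖ := by
      unfold conv
      refine (norm_integral_le_integral_norm _).trans (le_of_eq ?_)
      refine integral_congr_ae (Eventually.of_forall fun w => ?_)
      show ‖κ (tt z w) • φ w‖ = _
      rw [norm_smul, Real.norm_of_nonneg (hκ0 _ (htt0 _ _))]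
    have a2 := YNG_cs (YNG_cont1 h1 hκ z) (YNG_cpt h1 hκ z) (fun w => hκ0 _ (htt0 z w)) hnφ
    have a3 : 0 ≤ ∫ w : ℍ, κ (tt z w) * ‖φ w‖ ^ 2 :=
      integral_nonneg fun w => mul_nonneg (hκ0 _ (htt0 _ _)) (sq_nonneg _)
    calc ‖conv κ φ z‖ ^ 2 ≤ (∫ w : ℍ, κ (tt z w) * ‖φ w‖) ^ 2 :=
          pow_le_pow_left₀ (norm_nonneg _) a1 2
      _ ≤ _ := a2
      _ ≤ _ := mul_le_mul_of_nonneg_right (hm z) a3
  have c1 : Continuous fun z : ℍ => ∫ w : ℍ, κ (tt z w) * ‖φ w‖ ^ 2 :=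
    YNG_cint h1 hκ (hnφ.pow 2)
  have i1 : IntegrableOn (fun z : ℍ => m * ∫ w : ℍ, κ (tt z w) * ‖φ w‖ ^ 2) F :=
    ((continuous_const.mul c1).continuousOn.integrableOn_compact hK).mono_set hFK
  have i2 : IntegrableOn (fun z : ℍ => m * ‖φ z‖ ^ 2) F :=
    ((continuous_const.mul (hnφ.pow 2)).continuousOn.integrableOn_compact hK).mono_set hFK
  have s1 : ∫ z in F, ‖conv κ φ z‖ ^ 2 ≤ ∫ z in F, m * ∫ w : ℍ, κ (tt z w) * ‖φ w‖ ^ 2 :=
    integral_mono_of_nonneg (Eventually.of_forall fun z => sq_nonneg _) i1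
      (Eventually.of_forall hpt)
  have s2 : ∫ z in F, ∫ w : ℍ, κ (tt z w) * ‖φ w‖ ^ 2 = ∫ z in F, ∫ w : ℍ, κ (tt w z) * ‖φ z‖ ^ 2 := by
    refine h5 Γ F ℝ (fun z w => κ (tt z w) * ‖φ w‖ ^ 2) hΓ hF ?_ ?_ ?_
    · exact (YNG_cont2 h1 hκ).mul ((hnφ.pow 2).comp continuous_snd)
    · intro γ z w
      have e1 : tt (γ • z) (γ • w) = tt z w := h1.2.2.2.1 (γ : SL(2, ℝ)) z w
      show κ (tt (γ • z) (γ • w)) * ‖φ (γ • w)‖ ^ 2 = κ (tt z w) * ‖φ w‖ ^ 2
      rw [e1, hinv]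
    · obtain ⟨R, _, hR⟩ := YNG_supp h1 hκ
      refine ⟨R, fun z w hzw => hR z w fun h0 => hzw ?_⟩
      show κ (tt z w) * ‖φ w‖ ^ 2 = 0
      rw [h0, zero_mul]
  have s3 : ∫ z in F, ∫ w : ℍ, κ (tt w z) * ‖φ z‖ ^ 2 ≤ ∫ z in F, m * ‖φ z‖ ^ 2 := by
    refine integral_mono_of_nonneg (Eventually.of_forall fun z => ?_) i2
      (Eventually.of_forall fun z => ?_)
    · exact integral_nonneg fun w => mul_nonneg (hκ0 _ (htt0 _ _)) (sq_nonneg _)
    · show ∫ w : ℍ, κ (tt w z) * ‖φ z‖ ^ 2 ≤ m * ‖φ z‖ ^ 2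
      rw [integral_mul_const]
      refine mul_le_mul_of_nonneg_right ?_ (sq_nonneg _)
      refine le_trans (le_of_eq ?_) (hm z)
      refine integral_congr_ae (Eventually.of_forall fun w => ?_)
      show κ (tt w z) = κ (tt z w)
      rw [h1.2.2.1 w z]
  rw [integral_const_mul] at s1 s3
  rw [s2] at s1
  calc ∫ z in F, ‖conv κ φ z‖ ^ 2 ≤ m * ∫ z in F, ∫ w : ℍ, κ (tt w z) * ‖φ z‖ ^ 2 := s1
    _ ≤ m * (m * ∫ z in F, ‖φ z‖ ^ 2) := mul_le_mul_of_nonneg_left s3 hm0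
    _ = _ := by ring

end Pool.Agent.QU
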